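import Pool.Agent.H65.HalfFam.Basic

set_option autoImplicit false
open Finset

namespace Pool.Agent.H65.HalfFam

variable {X : Type} [LinearOrder X] (ρ : X → X → ℕ)

/-- The data attached to a bad point. -/
lemma bad_data (S : Finset X) (hdeg : ∀ a ∈ S, ∀ m, (up ρ S a m).card ≤ L m)
    {a : X} (haS : a ∈ S) {r : ℕ} {M : ℕ → ℕ} (hv : Valid ρ S a r M)
    (hno : ¬ Path ρ (S : Set X) a r M) :
    ∃ (p : ℕ) (M : ℕ → ℕ) (y : ℕ → X), y 0 = a ∧
      10 ≤ (vals ρ S a (M 0)).card ∧
      (∀ i < p, 2 * (1 + L (M i)) ≤ (vals ρ S a (M (i+1))).card) ∧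
      (∀ i < p, y (i+1) ∈ S ∧ y (i+1) < a ∧ ρ (y (i+1)) a ≤ M i) ∧
      (∀ i k, i ≤ k → k ≤ p → M i ≤ M k) ∧
      (∀ i ≤ p, ∀ b ∈ S, b < y i → ρ b a ≤ M i → ∃ l, i ≤ l ∧ l < p ∧ b = y (l+1)) := by
  classical
  obtain ⟨p, hpr, y, y0, hy, hfail⟩ := greedy ρ S a M r hno
  have hval : ∀ i < p, 2 * (1 + L (M i)) ≤ (vals ρ S a (M (i+1))).card :=
    fun i hi => hv.2 i (by omega)
  have hM : ∀ i < p, M i ≤ M (i+1) := by
    intro i hi
    by_contra h
    push Not at h
    have h1 := hval i hi
    have h2 : (vals ρ S a (M (i+1))).card ≤ (vals ρ S a (M i)).card :=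
      card_le_card (vals_mono ρ (Finset.Subset.refl _) a h.le)
    have h3 := vals_card_le ρ S a (M i)
    have h4 := hdeg a haS (M i)
    omega
  have hmono : ∀ i k, i ≤ k → k ≤ p → M i ≤ M k := by
    intro i k hik
    induction k, hik using Nat.le_induction with
    | base => intro _; exact le_rfl
    | succ n hn ih => intro hnp; exact (ih (by omega)).trans (hM n (by omega))
  have hle : ∀ i, i ≤ p → y i ≤ a := by
    intro i
    induction i with
    | zero => intro _; exact le_of_eq y0
    | succ n ih =>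
      intro hn
      exact ((hy n (by omega)).2.1.le).trans (ih (by omega))
  refine ⟨p, M, y, y0, hv.1, hval, ?_, hmono, ?_⟩
  · intro i hi
    exact ⟨(hy i hi).1, lt_of_lt_of_le (hy i hi).2.1 (hle i hi.le), (hy i hi).2.2.1⟩
  · have : ∀ n, ∀ i, i + n = p → ∀ b ∈ S, b < y i → ρ b a ≤ M i →
        ∃ l, i ≤ l ∧ l < p ∧ b = y (l+1) := by
      intro n
      induction n with
      | zero =>
        intro i hi b hb hby hρ
        have : i = p := by omega
        subst this
        exact absurd hρ (hfail b hb hby)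
      | succ n ih =>
        intro i hi b hb hby hρ
        have hip : i < p := by omega
        have h1 := (hy i hip).2.2.2 b hb hby hρ
        rcases h1.eq_or_lt with h | h
        · exact ⟨i, le_rfl, hip, h⟩
        · obtain ⟨l, hl, hlp, hbl⟩ := ih (i+1) (by omega) b hb h (hρ.trans (hM i hip))
          exact ⟨l, by omega, hlp, hbl⟩
    intro i hi
    exact this (p - i) i (by omega)

theorem bad_card (S : Finset X)
    (ha : ∀ a b c : X, a < b → b < c → ρ a c ≤ max (ρ a b) (ρ b c))
    (hb : ∀ a b c : X, a < b → b < c → ρ a b ≤ max (ρ a c) (ρ b c))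
    (hdeg : ∀ a ∈ S, ∀ m, (up ρ S a m).card ≤ L m)
    (B : Finset X) (hBS : B ⊆ S)
    (hB : ∀ a ∈ B, ∃ r M, Valid ρ S a r M ∧ ¬ Path ρ (S : Set X) a r M) :
    3 * B.card ≤ S.card := by
  classical
  rcases B.eq_empty_or_nonempty with hBe | ⟨a0, ha0⟩
  · subst hBe; simp
  have : Nonempty X := ⟨a0⟩
  have data : ∀ a ∈ B, ∃ (p : ℕ) (M : ℕ → ℕ) (y : ℕ → X), y 0 = a ∧
      10 ≤ (vals ρ S a (M 0)).card ∧
      (∀ i < p, 2 * (1 + L (M i)) ≤ (vals ρ S a (M (i+1))).card) ∧
      (∀ i < p, y (i+1) ∈ S ∧ y (i+1) < a ∧ ρ (y (i+1)) a ≤ M i) ∧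
      (∀ i k, i ≤ k → k ≤ p → M i ≤ M k) ∧
      (∀ i ≤ p, ∀ b ∈ S, b < y i → ρ b a ≤ M i → ∃ l, i ≤ l ∧ l < p ∧ b = y (l+1)) := by
    intro a haB
    obtain ⟨r, M, hv, hno⟩ := hB a haB
    exact bad_data ρ S hdeg (hBS haB) hv hno
  choose! p M y hy0 h10 hval hyS hmono hP4 using data
  set R : Finset X := S.filter (fun r => ∃ a ∈ B, ∃ i, i < p a ∧ y a (i+1) = r) with hR
  have hmax : ∀ r ∈ R, ∃ (a : X) (i : ℕ), a ∈ B ∧ i < p a ∧ y a (i+1) = r ∧
      ∀ a' ∈ B, ∀ i', i' < p a' → y a' (i'+1) = r → M a' i' ≤ M a i := by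
    intro r hr
    obtain ⟨_, a, haB, i, hi, hyi⟩ := mem_filter.mp hr
    set I : Finset (Σ _ : X, ℕ) :=
      (B.sigma (fun a => range (p a))).filter (fun q => y q.1 (q.2+1) = r) with hI
    have hne : I.Nonempty := by
      refine ⟨⟨a, i⟩, ?_⟩
      simp only [hI, mem_filter, mem_sigma, mem_range]
      exact ⟨⟨haB, hi⟩, hyi⟩
    obtain ⟨q, hq, hqmax⟩ := exists_max_image I (fun q => M q.1 q.2) hne
    simp only [hI, mem_filter, mem_sigma, mem_range] at hq
    refine ⟨q.1, q.2, hq.1.1, hq.1.2, hq.2, ?_⟩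
    intro a' ha' i' hi' hy'
    apply hqmax ⟨a', i'⟩
    simp only [hI, mem_filter, mem_sigma, mem_range]
    exact ⟨⟨ha', hi'⟩, hy'⟩
  choose! A I hAB hIp hyA hvmax using hmax
  set v : X → ℕ := fun r => M (A r) (I r) with hv
  set core : X → Finset X := fun r => S.filter (fun x => x = r ∨ (r < x ∧ ρ r x ≤ v r)) with hcore
  -- (f1)
  have f1 : ∀ r ∈ R, (core r).card ≤ 1 + L (v r) := by
    intro r hr
    have hrS : r ∈ S := (mem_filter.mp hr).1
    have h1 : core r ⊆ insert r (up ρ S r (v r)) := by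
      intro x hx
      simp only [hcore, mem_filter] at hx
      rcases hx.2 with h | h
      · simp [h]
      · apply mem_insert_of_mem
        simp only [up, mem_filter]
        exact ⟨hx.1, h⟩
    have h2 := card_le_card h1
    have h3 := card_insert_le r (up ρ S r (v r))
    have h4 := hdeg r hrS (v r)
    omega
  have f3 : ∀ r ∈ R, 12 ≤ (core r).card := by
    intro r hr
    have hrS : r ∈ S := (mem_filter.mp hr).1
    have hAr := hAB r hr
    have hIr := hIp r hr
    have hyr := hyA r hr
    have hd := hyS (A r) hAr (I r) hIr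
    rw [hyr] at hd
    have h1 : insert r (insert (A r) (up ρ S (A r) (v r))) ⊆ core r := by
      intro x hx
      simp only [hcore, mem_filter]
      rw [mem_insert, mem_insert] at hx
      rcases hx with h | h | h
      · subst h; exact ⟨hrS, Or.inl rfl⟩
      · subst h
        exact ⟨hBS hAr, Or.inr ⟨hd.2.1, hd.2.2⟩⟩
      · simp only [up, mem_filter] at h
        refine ⟨h.1, Or.inr ⟨hd.2.1.trans h.2.1, ?_⟩⟩
        exact (ha r (A r) x hd.2.1 h.2.1).trans (max_le hd.2.2 h.2.2)
    have h2 := card_le_card h1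
    have h3 : (insert r (insert (A r) (up ρ S (A r) (v r)))).card
        = (up ρ S (A r) (v r)).card + 1 + 1 := by
      rw [card_insert_of_notMem, card_insert_of_notMem]
      · simp [up]
      · simp only [mem_insert, up, mem_filter, not_or]
        exact ⟨ne_of_lt hd.2.1, fun h => absurd (hd.2.1.trans h.2.1) (lt_irrefl _)⟩
    have h4 := vals_card_le ρ S (A r) (v r)
    have h5 : (vals ρ S (A r) (M (A r) 0)).card ≤ (vals ρ S (A r) (v r)).card :=
      card_le_card (vals_mono ρ (Finset.Subset.refl _) _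
        (hmono (A r) hAr 0 (I r) (Nat.zero_le _) hIr.le))
    have h6 := h10 (A r) hAr
    omega
  have f4 : ∀ r ∈ R, ∀ r' ∈ R, r' < r → ∀ x, x ∈ core r → x ∈ core r' →
      2 * (core r).card ≤ (core r').card := by
    intro r hr r' hr' hlt x hx hx'
    have hr'S : r' ∈ S := (mem_filter.mp hr').1
    have hAr := hAB r hr
    have hIr := hIp r hr
    have hyr := hyA r hr
    have hd := hyS (A r) hAr (I r) hIr
    rw [hyr] at hd
    have hρ : ρ r' r ≤ max (v r') (v r) := by
      simp only [hcore, mem_filter] at hx hx'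
      rcases hx.2 with h | h
      · subst h
        rcases hx'.2 with h' | h'
        · exact absurd h' (ne_of_gt hlt)
        · exact h'.2.trans (le_max_left _ _)
      · rcases hx'.2 with h' | h'
        · exact absurd (h.1.trans_eq h') (not_lt_of_gt hlt)
        · exact (hb r' r x hlt h.1).trans (max_le_max h'.2 h.2)
    have hM1 : v r ≤ M (A r) (I r + 1) :=
      hmono (A r) hAr (I r) (I r + 1) (by omega) (by omega)
    have hρa : ρ r' (A r) ≤ max (ρ r' r) (ρ r (A r)) := ha r' r (A r) hlt hd.2.1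
    have hkey : M (A r) (I r + 1) ≤ v r' := by
      by_contra hcon
      push Not at hcon
      have h1 : ρ r' (A r) ≤ M (A r) (I r + 1) := by
        refine hρa.trans (max_le (hρ.trans (max_le hcon.le hM1)) (hd.2.2.trans hM1))
      obtain ⟨l, hl, hlp, hrl⟩ := hP4 (A r) hAr (I r + 1) (by omega) r' hr'S
        (by rw [hyr]; exact hlt) h1
      have h2 := hvmax r' hr' (A r) hAr l hlp hrl.symm
      have h3 := hmono (A r) hAr (I r + 1) l hl hlp.le
      exact absurd (h3.trans h2) (not_le_of_gt hcon)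
    have hvv : v r ≤ v r' := hM1.trans hkey
    have hsub : up ρ S (A r) (M (A r) (I r + 1)) ⊆ core r' := by
      intro z hz
      simp only [up, mem_filter] at hz
      simp only [hcore, mem_filter]
      have h1 : r' < A r := hlt.trans hd.2.1
      refine ⟨hz.1, Or.inr ⟨h1.trans hz.2.1, ?_⟩⟩
      refine (ha r' (A r) z h1 hz.2.1).trans (max_le ?_ (hz.2.2.trans hkey))
      refine hρa.trans (max_le (hρ.trans (max_le le_rfl hvv)) (hd.2.2.trans hvv))
    have h1 := card_le_card hsub
    have h2 := vals_card_le ρ S (A r) (M (A r) (I r + 1))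
    have h3 := hval (A r) hAr (I r) hIr
    have h4 := f1 r hr
    have h5 : L (v r) = L (M (A r) (I r)) := rfl
    omega
  -- |R| ≤ |S|/6
  have hRcard : 6 * R.card ≤ S.card := by
    have hsum : ∀ c ∈ S, ∑ r ∈ R.filter (fun r => c ∈ core r), 1 / ((core r).card : ℝ) ≤ 1/6 := by
      intro c _
      have := doubling_sum (R.filter (fun r => c ∈ core r)) (fun r => ((core r).card : ℝ)) ?_ 12
        (by norm_num) ?_
      · refine this.trans ?_
        norm_num
      · intro r hr r' hr' hlt
        rw [mem_filter] at hr hr'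
        have := f4 r hr.1 r' hr'.1 hlt c hr.2 hr'.2
        exact_mod_cast this
      · intro r hr
        rw [mem_filter] at hr
        exact_mod_cast f3 r hr.1
    have h1 : (R.card : ℝ) = ∑ r ∈ R, ∑ c ∈ S, if c ∈ core r then 1 / ((core r).card : ℝ) else 0 := by
      rw [card_eq_sum_ones, Nat.cast_sum]
      apply sum_congr rfl
      intro r hr
      rw [← sum_filter]
      have hfil : S.filter (fun c => c ∈ core r) = core r := by
        ext x
        simp only [hcore, mem_filter]
        tauto
      rw [hfil, sum_const, nsmul_eq_mul]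
      have : (0 : ℝ) < ((core r).card : ℝ) := by
        have := f3 r hr
        exact_mod_cast (by omega : 0 < (core r).card)
      field_simp
      norm_num
    rw [sum_comm] at h1
    have h2 : (R.card : ℝ) ≤ ∑ c ∈ S, (1/6 : ℝ) := by
      rw [h1]
      apply sum_le_sum
      intro c hc
      rw [← sum_filter]
      exact hsum c hc
    rw [sum_const, nsmul_eq_mul] at h2
    have h3 : (6 : ℝ) * R.card ≤ S.card := by linarith
    exact_mod_cast h3
  -- children
  set C : X → Finset X := fun a => S.filter (fun x => a < x ∧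
    ∀ b ∈ S \ R, b < x → ρ a x < ρ b x ∨ (ρ a x = ρ b x ∧ a ≤ b)) with hC
  have hCcard : ∀ a ∈ B \ R, 10 ≤ (C a).card := by
    intro a haBR
    rw [mem_sdiff] at haBR
    obtain ⟨haB, haR⟩ := haBR
    have haS := hBS haB
    have h1 : vals ρ S a (M a 0) ⊆ (C a).image (fun x => ρ a x) := by
      intro d hd
      simp only [vals, mem_image, up, mem_filter] at hd
      obtain ⟨x0, ⟨hx0S, hx0a, hx0M⟩, hx0d⟩ := hd
      set D := S.filter (fun x => a < x ∧ ρ a x = d) with hD
      have hDne : D.Nonempty := ⟨x0, mem_filter.mpr ⟨hx0S, hx0a, hx0d⟩⟩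
      have hxD := D.min'_mem hDne
      set x := D.min' hDne with hx
      have hxD' := mem_filter.mp hxD
      rw [mem_image]
      refine ⟨x, ?_, hxD'.2.2⟩
      simp only [hC, mem_filter]
      refine ⟨hxD'.1, hxD'.2.1, ?_⟩
      intro b hb' hbx
      rw [mem_sdiff] at hb'
      have hdM : d ≤ M a 0 := hx0d ▸ hx0M
      rw [hxD'.2.2]
      rcases lt_trichotomy b a with hba | hba | hba
      · left
        by_contra hcon
        push Not at hcon
        have h2 : ρ b a ≤ M a 0 := by
          refine (hb b a x hba hxD'.2.1).trans (max_le (hcon.trans hdM) ?_)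
          rw [hxD'.2.2]; exact hdM
        obtain ⟨l, _, hlp, hbl⟩ := hP4 a haB 0 (Nat.zero_le _) b hb'.1 (by rw [hy0 a haB]; exact hba) h2
        apply hb'.2
        simp only [hR, mem_filter]
        exact ⟨hb'.1, a, haB, l, hlp, hbl.symm⟩
      · right
        subst hba
        exact ⟨hxD'.2.2.symm, le_rfl⟩
      · by_cases hcon : d < ρ b x
        · left; exact hcon
        · push Not at hcon
          right
          rcases hcon.eq_or_lt with he | hl
          · exact ⟨he.symm, hba.le⟩
          · exfalso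
            have h2 : ρ a b ≤ d := by
              refine (hb a b x hba hbx).trans (max_le ?_ hcon)
              rw [hxD'.2.2]
            have h3 : d ≤ ρ a b := by
              have h4 := ha a b x hba hbx
              rw [hxD'.2.2] at h4
              rcases le_max_iff.mp h4 with h | h
              · exact h
              · omega
            have h5 : b ∈ D := mem_filter.mpr ⟨hb'.1, hba, le_antisymm h2 h3⟩
            have h6 := D.min'_le b h5
            exact absurd (lt_of_le_of_lt h6 hbx) (lt_irrefl _)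
    have h2 := card_le_card h1
    have h3 := card_image_le (s := C a) (f := fun x => ρ a x)
    have h4 := h10 a haB
    omega
  have hdisj : ∀ a ∈ B \ R, ∀ a' ∈ B \ R, a ≠ a' → Disjoint (C a) (C a') := by
    intro a ha1 a' ha2 hne
    rw [Finset.disjoint_left]
    intro x hx hx'
    simp only [hC, mem_filter] at hx hx'
    have haS : a ∈ S \ R := by
      rw [mem_sdiff] at ha1 ⊢; exact ⟨hBS ha1.1, ha1.2⟩
    have haS' : a' ∈ S \ R := by
      rw [mem_sdiff] at ha2 ⊢; exact ⟨hBS ha2.1, ha2.2⟩
    have h1 := hx.2.2 a' haS' hx'.2.1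
    have h2 := hx'.2.2 a haS hx.2.1
    apply hne
    rcases h1 with h1 | h1
    · rcases h2 with h2 | h2
      · omega
      · omega
    · rcases h2 with h2 | h2
      · omega
      · exact le_antisymm h1.2 h2.2
  have hBR : 10 * (B \ R).card ≤ S.card := by
    have h1 : ((B \ R).biUnion C).card = ∑ a ∈ B \ R, (C a).card := card_biUnion hdisj
    have h2 : ((B \ R).biUnion C) ⊆ S := by
      intro x hx
      rw [mem_biUnion] at hx
      obtain ⟨a, _, hxa⟩ := hx
      exact (mem_filter.mp hxa).1
    have h3 := card_le_card h2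
    have h4 : ∑ a ∈ B \ R, 10 ≤ ∑ a ∈ B \ R, (C a).card := sum_le_sum hCcard
    rw [sum_const, smul_eq_mul] at h4
    omega
  have hBle : B.card ≤ R.card + (B \ R).card := by
    have : B ⊆ R ∪ (B \ R) := by
      intro x hx
      by_cases h : x ∈ R
      · exact mem_union_left _ h
      · exact mem_union_right _ (mem_sdiff.mpr ⟨hx, h⟩)
    exact (card_le_card this).trans (card_union_le _ _)
  omega

end Pool.Agent.H65.HalfFam
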