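import Mathlib

set_option autoImplicit false
open Finset

namespace Pool.Agent.H65.HalfFam

/-- The growth function `L m = m * 2^(m+2)`. -/
def L (m : ℕ) : ℕ := m * 2 ^ (m + 2)

lemma L_mono : Monotone L := by
  intro a b hab
  unfold L
  exact Nat.mul_le_mul hab (Nat.pow_le_pow_right (by norm_num) (by omega))

variable {X : Type} [LinearOrder X] (ρ : X → X → ℕ)

/-- Points of `t` above `a` at distance at most `m`. -/
def up (t : Finset X) (a : X) (m : ℕ) : Finset X := t.filter (fun x => a < x ∧ ρ a x ≤ m)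

/-- The distances `≤ m` from `a` to points of `t` above `a`. -/
def vals (t : Finset X) (a : X) (m : ℕ) : Finset ℕ := (up ρ t a m).image (fun x => ρ a x)

lemma up_mono {t t' : Finset X} (h : t ⊆ t') (a : X) {m m' : ℕ} (hm : m ≤ m') :
    up ρ t a m ⊆ up ρ t' a m' := by
  intro x hx
  simp only [up, mem_filter] at hx ⊢
  exact ⟨h hx.1, hx.2.1, hx.2.2.trans hm⟩

lemma vals_mono {t t' : Finset X} (h : t ⊆ t') (a : X) {m m' : ℕ} (hm : m ≤ m') :
    vals ρ t a m ⊆ vals ρ t' a m' := image_subset_image (up_mono ρ h a hm)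

lemma vals_card_le (t : Finset X) (a : X) (m : ℕ) :
    (vals ρ t a m).card ≤ (up ρ t a m).card := card_image_le

/-- A valid demand sequence of length `r` at `a`. -/
def Valid (t : Finset X) (a : X) (r : ℕ) (M : ℕ → ℕ) : Prop :=
  10 ≤ (vals ρ t a (M 0)).card ∧
    ∀ i, i + 1 < r → 2 * (1 + L (M i)) ≤ (vals ρ t a (M (i+1))).card

/-- A descending path of length `r` below `a` inside `U` obeying the distance bounds `M`. -/
def Path (U : Set X) (a : X) (r : ℕ) (M : ℕ → ℕ) : Prop :=
  ∃ z : ℕ → X, (∀ i < r, z i ∈ U ∧ z i < a ∧ ρ (z i) a ≤ M i) ∧ ∀ i, i + 1 < r → z (i+1) < z i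

lemma Valid.mono {t t' : Finset X} (h : t ⊆ t') {a : X} {r : ℕ} {M : ℕ → ℕ}
    (hv : Valid ρ t a r M) : Valid ρ t' a r M :=
  ⟨hv.1.trans (card_le_card (vals_mono ρ h a le_rfl)),
    fun i hi => (hv.2 i hi).trans (card_le_card (vals_mono ρ h a le_rfl))⟩

lemma Path.mono {U U' : Set X} (h : U ⊆ U') {a : X} {r : ℕ} {M : ℕ → ℕ}
    (hp : Path ρ U a r M) : Path ρ U' a r M := by
  obtain ⟨z, hz, hz'⟩ := hp
  exact ⟨z, fun i hi => ⟨h (hz i hi).1, (hz i hi).2⟩, hz'⟩

lemma greedy (S : Finset X) (a : X) (M : ℕ → ℕ) (r : ℕ) (hno : ¬ Path ρ (S : Set X) a r M) :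
    ∃ p < r, ∃ y : ℕ → X, y 0 = a ∧
      (∀ i < p, y (i+1) ∈ S ∧ y (i+1) < y i ∧ ρ (y (i+1)) a ≤ M i ∧
        ∀ b ∈ S, b < y i → ρ b a ≤ M i → b ≤ y (i+1)) ∧
      ∀ b ∈ S, b < y p → ¬ ρ b a ≤ M p := by
  classical
  set T : X → ℕ → Finset X := fun b i => S.filter (fun z => z < b ∧ ρ z a ≤ M i) with hT
  set step : ℕ → X → X := fun i b => if h : (T b i).Nonempty then (T b i).max' h else b with hstep
  set y : ℕ → X := fun n => Nat.rec a (fun i b => step i b) n with hy
  have y0 : y 0 = a := rfl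
  have ys : ∀ i, y (i+1) = step i (y i) := fun i => rfl
  have key : ∀ i, (T (y i) i).Nonempty → y (i+1) ∈ S ∧ y (i+1) < y i ∧ ρ (y (i+1)) a ≤ M i ∧
        ∀ b ∈ S, b < y i → ρ b a ≤ M i → b ≤ y (i+1) := by
    intro i hi
    have h1 : y (i+1) = (T (y i) i).max' hi := by
      rw [ys, hstep]; simp only [hi, dif_pos]
    have h2 : (T (y i) i).max' hi ∈ T (y i) i := max'_mem _ _
    have h3 := mem_filter.mp h2
    rw [← h1] at h3
    refine ⟨h3.1, h3.2.1, h3.2.2, ?_⟩
    intro b hb hby hρ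
    rw [h1]
    exact le_max' _ _ (mem_filter.mpr ⟨hb, hby, hρ⟩)
  by_cases hall : ∀ i < r, (T (y i) i).Nonempty
  · exfalso
    apply hno
    have hle : ∀ i, i ≤ r → y i ≤ a := by
      intro i
      induction i with
      | zero => intro _; exact le_of_eq y0
      | succ n ih =>
        intro hn
        exact ((key n (hall n (by omega))).2.1.le).trans (ih (by omega))
    refine ⟨fun i => y (i+1), ?_, ?_⟩
    · intro i hi
      have := key i (hall i hi)
      exact ⟨this.1, lt_of_lt_of_le this.2.1 (hle i hi.le), this.2.2.1⟩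
    · intro i hi
      exact (key (i+1) (hall (i+1) hi)).2.1
  · push Not at hall
    have hex : ∃ i, i < r ∧ T (y i) i = ∅ := hall
    refine ⟨Nat.find hex, (Nat.find_spec hex).1, y, y0, ?_, ?_⟩
    · intro i hi
      have := Nat.find_min hex hi
      have hir : i < r := lt_trans hi (Nat.find_spec hex).1
      apply key
      rw [nonempty_iff_ne_empty]
      intro h
      exact this ⟨hir, h⟩
    · intro b hb hbp hρ
      have := (Nat.find_spec hex).2
      have hmem : b ∈ T (y (Nat.find hex)) (Nat.find hex) := mem_filter.mpr ⟨hb, hbp, hρ⟩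
      rw [this] at hmem
      exact absurd hmem (notMem_empty _)

/-- Doubling sums: if `f` at least doubles going down, then `∑ 1/f ≤ 2/c`. -/
lemma doubling_sum (T : Finset X) (f : X → ℝ) 
    (hd : ∀ r ∈ T, ∀ r' ∈ T, r' < r → 2 * f r ≤ f r') :
    ∀ c : ℝ, 0 < c → (∀ r ∈ T, c ≤ f r) → ∑ r ∈ T, 1 / f r ≤ 2 / c := by
  classical
  induction T using Finset.induction_on_max with
  | empty => intro c hc _; simp; positivity
  | insert a s hmax ih =>
    intro c hc hcf
    have has : a ∉ s := fun h => lt_irrefl _ (hmax a h)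
    rw [sum_insert has]
    have hfa : c ≤ f a := hcf a (mem_insert_self _ _)
    have hfa0 : 0 < f a := lt_of_lt_of_le hc hfa
    have h1 := ih (fun r hr r' hr' h => hd r (mem_insert_of_mem hr) r' (mem_insert_of_mem hr') h)
      (2 * f a) (by positivity) (fun r hr => hd a (mem_insert_self _ _) r (mem_insert_of_mem hr) (hmax r hr))
    have h2 : 2 / (2 * f a) = 1 / f a := by field_simp
    rw [h2] at h1
    have h3 : 1 / f a ≤ 1 / c := one_div_le_one_div_of_le hc hfa
    have h4 : 2 / c = 1 / c + 1 / c := by ring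
    rw [h4]
    linarith

end Pool.Agent.H65.HalfFam
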