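import Mathlib

set_option autoImplicit false
open Finset

namespace Pool.Agent.H65.HalfFam

variable {X : Type} [LinearOrder X]

/-- `f` is a good column at `δ` over the columns `e β`, `β < δ`. -/
def Good (e : X → X → ℕ) (δ : X) (f : X → ℕ) : Prop :=
  f δ = 0 ∧
  (∀ α β, α ≤ β → β < δ → f α ≤ max (e β α) (f β)) ∧
  (∀ α β, α ≤ β → β < δ → e β α ≤ max (f α) (f β)) ∧
  (∀ m : ℕ, {α | α < δ ∧ f α ≤ m}.encard ≤ (m : ℕ∞)) ∧
  (∀ s : ℕ, ∃ N : ℕ, ∀ m : ℕ, N ≤ m → {α | α < δ ∧ f α ≤ m}.encard + (s : ℕ∞) ≤ (m : ℕ∞))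

lemma Good.congr {e e' : X → X → ℕ} {δ : X} {f : X → ℕ} (h : ∀ β < δ, e β = e' β)
    (hg : Good e δ f) : Good e' δ f := by
  refine ⟨hg.1, ?_, ?_, hg.2.2.2.1, hg.2.2.2.2⟩
  · intro α β hαβ hβ
    rw [← h β hβ]; exact hg.2.1 α β hαβ hβ
  · intro α β hαβ hβ
    rw [← h β hβ]; exact hg.2.2.1 α β hαβ hβ

lemma exists_cofinal {δ : X} (hc : (Set.Iio δ).Countable) (hne : (Set.Iio δ).Nonempty) :
    ∃ γ : ℕ → X, Monotone γ ∧ (∀ k, γ k < δ) ∧ ∀ α < δ, ∃ k, α ≤ γ k := by
  obtain ⟨s, hs⟩ := hc.exists_eq_range hne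
  have hs' : ∀ k, s k < δ := fun k => by
    have : s k ∈ Set.Iio δ := hs ▸ Set.mem_range_self k
    exact this
  refine ⟨fun n => Nat.rec (s 0) (fun k x => max x (s (k+1))) n, ?_, ?_, ?_⟩
  · apply monotone_nat_of_le_succ
    intro n
    exact le_max_left _ _
  · intro k
    induction k with
    | zero => exact hs' 0
    | succ n ih => exact max_lt ih (hs' (n+1))
  · intro α hα
    have : α ∈ Set.range s := hs ▸ hα
    obtain ⟨k, hk⟩ := this
    refine ⟨k, ?_⟩
    rw [← hk]
    cases k with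
    | zero => exact le_rfl
    | succ n => exact le_max_right _ _

lemma extend (e : X → X → ℕ) (δ : X) (hc : (Set.Iio δ).Countable)
    (he : ∀ γ < δ, Good e γ (e γ)) : ∃ f, Good e δ f := by
  classical
  rcases (Set.Iio δ).eq_empty_or_nonempty with hemp | hne
  · have hno : ∀ α, ¬ α < δ := fun α h => by
      have : α ∈ Set.Iio δ := h
      rw [hemp] at this
      exact this
    have hset : ∀ m : ℕ, {α : X | α < δ ∧ (fun _ : X => 0) α ≤ m} = ∅ := by
      intro m
      ext α
      simp [hno α]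
    refine ⟨fun _ => 0, rfl, ?_, ?_, ?_, ?_⟩
    · intro α β _ h; exact absurd h (hno β)
    · intro α β _ h; exact absurd h (hno β)
    · intro m; rw [hset]; simp
    · intro s
      refine ⟨s, fun m hm => ?_⟩
      rw [hset]; simp; exact_mod_cast hm
  · obtain ⟨γ, hγmono, hγδ, hγcof⟩ := exists_cofinal hc hne
    have hA : ∀ α β γ', α ≤ β → β ≤ γ' → γ' < δ → e γ' α ≤ max (e β α) (e γ' β) := by
      intro α β γ' h1 h2 h3
      rcases h2.eq_or_lt with h | h
      · subst h; exact le_max_left _ _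
      · exact (he γ' h3).2.1 α β h1 h
    have hB : ∀ α β γ', α ≤ β → β ≤ γ' → γ' < δ → e β α ≤ max (e γ' α) (e γ' β) := by
      intro α β γ' h1 h2 h3
      rcases h2.eq_or_lt with h | h
      · subst h; exact le_max_left _ _
      · exact (he γ' h3).2.2.1 α β h1 h
    have hT : ∀ k : ℕ, ∃ N : ℕ, ∀ m : ℕ, N ≤ m →
        {α | α < γ k ∧ e (γ k) α ≤ m}.encard + ((k + 2 : ℕ) : ℕ∞) ≤ (m : ℕ∞) :=
      fun k => (he (γ k) (hγδ k)).2.2.2.2 (k+2)
    choose T hT using hT
    set N : ℕ → ℕ := fun k => ∑ j ∈ range (k+1), (T j + 1 + ∑ i ∈ range (j+1), e (γ j) (γ i)) with hN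
    have hNs : ∀ k, N (k+1) = N k + (T (k+1) + 1 + ∑ i ∈ range (k+1+1), e (γ (k+1)) (γ i)) :=
      fun k => sum_range_succ _ (k+1)
    have hNmono : StrictMono N := by
      apply strictMono_nat_of_lt_succ
      intro k
      rw [hNs]; omega
    have hNlast : ∀ k, T k + 1 + ∑ i ∈ range (k+1), e (γ k) (γ i) ≤ N k := by
      intro k
      cases k with
      | zero => simp [hN]
      | succ n => rw [hNs]; omega
    have hNT : ∀ k, T k ≤ N k := fun k => by have := hNlast k; omega
    have hNρ : ∀ i k, i ≤ k → e (γ k) (γ i) ≤ N k := by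
      intro i k hik
      have h1 : e (γ k) (γ i) ≤ ∑ i ∈ range (k+1), e (γ k) (γ i) :=
        single_le_sum (f := fun i => e (γ k) (γ i)) (fun _ _ => Nat.zero_le _)
          (mem_range.mpr (by omega))
      have := hNlast k
      omega
    have hκ : ∀ α, ∃ k : ℕ, α < δ → (α ≤ γ k ∧ ∀ k', α ≤ γ k' → k ≤ k') := by
      intro α
      by_cases hα : α < δ
      · refine ⟨Nat.find (hγcof α hα), fun _ => ⟨Nat.find_spec (hγcof α hα), fun k' hk' => Nat.find_min' _ hk'⟩⟩
      · exact ⟨0, fun h => absurd h hα⟩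
    choose κ hκ using hκ
    set f : X → ℕ := fun α => if α < δ then max (e (γ (κ α)) α) (N (κ α)) else 0 with hf
    have hfα : ∀ α < δ, f α = max (e (γ (κ α)) α) (N (κ α)) := fun α h => by simp only [hf, h, if_true]
    have hkey : ∀ m K : ℕ, N K ≤ m → (∀ k, N k ≤ m → k ≤ K) →
        {α | α < δ ∧ f α ≤ m}.encard + ((K + 1 : ℕ) : ℕ∞) ≤ (m : ℕ∞) := by
      intro m K hK hKmax
      have hsub : {α | α < δ ∧ f α ≤ m} ⊆ insert (γ K) {α | α < γ K ∧ e (γ K) α ≤ m} := by
        rintro α ⟨hα, hfm⟩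
        rw [hfα α hα] at hfm
        have h1 := (le_max_left _ _).trans hfm
        have h2 := (le_max_right _ _).trans hfm
        have h3 := hKmax _ h2
        have h4 := (hκ α hα).1
        have h5 : α ≤ γ K := h4.trans (hγmono h3)
        rcases h5.eq_or_lt with h | h
        · left; exact h
        · right
          refine ⟨h, ?_⟩
          refine (hA α (γ (κ α)) (γ K) h4 (hγmono h3) (hγδ K)).trans (max_le h1 ?_)
          exact (hNρ _ _ h3).trans hK
      have h1 := Set.encard_le_encard hsub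
      have h2 := Set.encard_insert_le {α | α < γ K ∧ e (γ K) α ≤ m} (γ K)
      have h3 := hT K m ((hNT K).trans hK)
      calc {α | α < δ ∧ f α ≤ m}.encard + ((K + 1 : ℕ) : ℕ∞)
          ≤ ({α | α < γ K ∧ e (γ K) α ≤ m}.encard + 1) + ((K + 1 : ℕ) : ℕ∞) := by
            gcongr; exact h1.trans h2
        _ = {α | α < γ K ∧ e (γ K) α ≤ m}.encard + ((K + 2 : ℕ) : ℕ∞) := by
            push_cast
            ring
        _ ≤ m := h3
    refine ⟨f, ?_, ?_, ?_, ?_, ?_⟩
    · simp [hf]
    · intro α β hαβ hβ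
      have hα : α < δ := lt_of_le_of_lt hαβ hβ
      rw [hfα α hα, hfα β hβ]
      have hβ1 := (hκ β hβ).1
      have hkl : κ α ≤ κ β := (hκ α hα).2 _ (hαβ.trans hβ1)
      refine max_le ?_ ?_
      · have h1 := hB α (γ (κ α)) (γ (κ β)) (hκ α hα).1 (hγmono hkl) (hγδ _)
        have h2 := hA α β (γ (κ β)) hαβ hβ1 (hγδ _)
        have h3 := hNρ _ _ hkl
        have h4 := le_max_left (e (γ (κ β)) β) (N (κ β))
        have h5 := le_max_right (e (γ (κ β)) β) (N (κ β))
        refine h1.trans (max_le (h2.trans (max_le_max le_rfl h4)) ?_)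
        exact (h3.trans h5).trans (le_max_right _ _)
      · exact (hNmono.monotone hkl).trans ((le_max_right _ _).trans (le_max_right _ _))
    · intro α β hαβ hβ
      have hα : α < δ := lt_of_le_of_lt hαβ hβ
      rw [hfα α hα, hfα β hβ]
      have hβ1 := (hκ β hβ).1
      have hkl : κ α ≤ κ β := (hκ α hα).2 _ (hαβ.trans hβ1)
      have h1 := hB α β (γ (κ β)) hαβ hβ1 (hγδ _)
      have h2 := hA α (γ (κ α)) (γ (κ β)) (hκ α hα).1 (hγmono hkl) (hγδ _)
      have h3 := hNρ _ _ hkl
      refine h1.trans (max_le (h2.trans ?_) ?_)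
      · exact max_le_max (le_max_left _ _) (h3.trans (le_max_right _ _))
      · exact (le_max_left _ _).trans (le_max_right _ _)
    · intro m
      by_cases h0 : N 0 ≤ m
      · have h1 := Nat.findGreatest_spec (P := fun k => N k ≤ m) (Nat.zero_le m) h0
        have h2 : ∀ k, N k ≤ m → k ≤ Nat.findGreatest (fun k => N k ≤ m) m := by
          intro k hk
          exact Nat.le_findGreatest ((hNmono.le_apply (x := k)).trans hk) hk
        exact le_trans le_self_add (hkey m _ h1 h2)
      · have : {α | α < δ ∧ f α ≤ m} = ∅ := by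
          ext α
          simp only [Set.mem_ofPred_eq, Set.mem_empty_iff_false, iff_false, not_and]
          intro hα hfm
          rw [hfα α hα] at hfm
          exact h0 ((hNmono.monotone (Nat.zero_le _)).trans ((le_max_right _ _).trans hfm))
        rw [this]; simp
    · intro s
      refine ⟨N s, fun m hm => ?_⟩
      have h0 : N 0 ≤ m := (hNmono.monotone (Nat.zero_le _)).trans hm
      have h1 := Nat.findGreatest_spec (P := fun k => N k ≤ m) (Nat.zero_le m) h0
      have h2 : ∀ k, N k ≤ m → k ≤ Nat.findGreatest (fun k => N k ≤ m) m := by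
        intro k hk
        exact Nat.le_findGreatest ((hNmono.le_apply (x := k)).trans hk) hk
      refine le_trans ?_ (hkey m _ h1 h2)
      gcongr
      have := h2 s hm
      omega

variable [WellFoundedLT X]

open Classical in
/-- The recursively chosen columns. -/
noncomputable def eRec : X → X → ℕ :=
  (wellFounded_lt (α := X)).fix (fun δ ih =>
    if h : ∃ f, Good (fun β => if hβ : β < δ then ih β hβ else fun _ => 0) δ f
      then h.choose else fun _ => 0)

lemma eRec_good (hc : ∀ δ : X, (Set.Iio δ).Countable) : ∀ δ : X, Good eRec δ (eRec δ) := by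
  classical
  intro δ
  induction δ using WellFoundedLT.induction with
  | ind δ ih =>
    obtain ⟨f, hf⟩ := extend eRec δ (hc δ) ih
    set e' : X → X → ℕ := fun β => if β < δ then eRec β else fun _ => 0 with he'
    have hcongr : ∀ β < δ, eRec β = e' β := by
      intro β hβ
      simp only [he', hβ, if_true]
    have hex : ∃ f, Good e' δ f := ⟨f, hf.congr hcongr⟩
    have heq : eRec δ = hex.choose := by
      have h1 : eRec δ = if h : ∃ f, Good e' δ f then h.choose else fun _ => 0 := by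
        conv_lhs => unfold eRec
        rw [WellFounded.fix_eq]
        rfl
      rw [h1, dif_pos hex]
    rw [heq]
    exact hex.choose_spec.congr (fun β hβ => (hcongr β hβ).symm)

theorem exists_rho (hc : ∀ δ : X, (Set.Iio δ).Countable) :
    ∃ ρ : X → X → ℕ,
      (∀ a b c : X, a < b → b < c → ρ a c ≤ max (ρ a b) (ρ b c)) ∧
      (∀ a b c : X, a < b → b < c → ρ a b ≤ max (ρ a c) (ρ b c)) ∧
      ∀ (c : X) (m : ℕ), {a | a < c ∧ ρ a c ≤ m}.encard ≤ (m : ℕ∞) := by
  refine ⟨fun a c => eRec c a, ?_, ?_, ?_⟩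
  · intro a b c hab hbc
    exact (eRec_good hc c).2.1 a b hab.le hbc
  · intro a b c hab hbc
    exact (eRec_good hc c).2.2.1 a b hab.le hbc
  · intro c m
    exact (eRec_good hc c).2.2.2.1 m

end Pool.Agent.H65.HalfFam
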