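import Pool.Agent.H65.HalfFam.Bad
import Pool.Agent.H65.HalfFam.Rho

set_option autoImplicit false
open Finset

namespace Pool.Agent.H65.HalfFam

variable {X : Type} [LinearOrder X] (ρ : X → X → ℕ)

/-- The hereditary property defining the family. -/
def Fam (t : Finset X) : Prop :=
  ∀ a ∈ t, (∀ m, (up ρ t a m).card ≤ L m) ∧
    ∀ r M, Valid ρ t a r M → Path ρ Set.univ a r M

lemma Fam.mono {t t' : Finset X} (h : t ⊆ t') (hF : Fam ρ t') : Fam ρ t := by
  intro a ha
  refine ⟨fun m => (card_le_card (up_mono ρ h a le_rfl)).trans ((hF a (h ha)).1 m), ?_⟩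
  intro r M hv
  exact (hF a (h ha)).2 r M (hv.mono ρ h)

/-- The compact family, as a set of functions. -/
def K : Set (X → Bool) := {f | ∀ t : Finset X, (∀ x ∈ t, f x = true) → Fam ρ t}

lemma isCompact_K : IsCompact (K ρ) := by
  apply IsClosed.isCompact
  have : K ρ = ⋂ t : Finset X, {f : X → Bool | (∀ x ∈ t, f x = true) → Fam ρ t} := by
    ext f; simp [K]
  rw [this]
  apply isClosed_iInter
  intro t
  by_cases hF : Fam ρ t
  · have : {f : X → Bool | (∀ x ∈ t, f x = true) → Fam ρ t} = Set.univ := by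
      ext f; simp [hF]
    rw [this]; exact isClosed_univ
  · have : {f : X → Bool | (∀ x ∈ t, f x = true) → Fam ρ t}
        = (⋂ x ∈ t, (fun f : X → Bool => f x) ⁻¹' {true})ᶜ := by
      ext f; simp [hF]
    rw [this, isClosed_compl_iff]
    apply isOpen_biInter_finset
    intro x _
    exact (isOpen_discrete _).preimage (continuous_apply x)

lemma K_hereditary (f : X → Bool) (hf : f ∈ K ρ) (g : X → Bool)
    (hg : ∀ x, g x = true → f x = true) : g ∈ K ρ :=
  fun t ht => hf t (fun x hx => hg x (ht x hx))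

lemma mem_K_of_fam {B : Finset X} (hB : Fam ρ B) (f : X → Bool) (hf : ∀ y, f y = true ↔ y ∈ B) :
    f ∈ K ρ := by
  intro t ht
  exact Fam.mono ρ (fun x hx => (hf x).mp (ht x hx)) hB

lemma fam_singleton (x : X) : Fam ρ {x} := by
  have hup : ∀ m, up ρ {x} x m = ∅ := by
    intro m
    apply filter_eq_empty_iff.mpr
    intro y hy
    rw [mem_singleton] at hy
    subst hy
    simp
  intro a ha
  rw [mem_singleton] at ha
  subst ha
  refine ⟨fun m => by rw [hup]; simp, ?_⟩
  intro r M hv
  exfalso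
  have h1 := hv.1
  have h2 := vals_card_le ρ {a} a (M 0)
  rw [hup] at h2
  simp at h2
  rw [h2] at h1
  simp at h1

/-- Members of `K` have finite support. -/
lemma finite_of_mem_K [WellFoundedLT X] 
    (hc : ∀ (c : X) (m : ℕ), {a | a < c ∧ ρ a c ≤ m}.Finite)
    (f : X → Bool) (hf : f ∈ K ρ) : {x | f x = true}.Finite := by
  classical
  by_contra hinf
  have hinf : {x | f x = true}.Infinite := hinf
  set A : Set X := {x | f x = true} with hA
  obtain ⟨a, haA, hamin⟩ := WellFounded.has_min (wellFounded_lt (α := X)) A hinf.nonempty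
  have hfin : ∀ t : Finset X, (t : Set X) ⊆ A → Fam ρ t := fun t ht => hf t (fun x hx => ht hx)
  -- few points at each distance
  have h1 : ∀ m, {x | x ∈ A ∧ a < x ∧ ρ a x ≤ m}.Finite := by
    intro m
    by_contra hcon
    have hcon : {x | x ∈ A ∧ a < x ∧ ρ a x ≤ m}.Infinite := hcon
    obtain ⟨t, ht, htc⟩ := hcon.exists_subset_card_eq (L m + 1)
    have h2 := hfin (insert a t) (by
      intro x hx
      rw [coe_insert, Set.mem_insert_iff] at hx
      rcases hx with h | h
      · exact h ▸ haA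
      · exact (ht h).1)
    have h3 := (h2 a (mem_insert_self _ _)).1 m
    have h4 : t ⊆ up ρ (insert a t) a m := by
      intro x hx
      simp only [up, mem_filter]
      exact ⟨mem_insert_of_mem hx, (ht hx).2⟩
    have h5 := card_le_card h4
    omega
  -- many distances
  have h2 : ∀ q : ℕ, ∃ m : ℕ, ∃ t : Finset X, (t : Set X) ⊆ A ∧ q ≤ (vals ρ t a m).card := by
    intro q
    have hDinf : ((fun x => ρ a x) '' {x | x ∈ A ∧ a < x}).Infinite := by
      by_contra hcon
      rw [Set.not_infinite] at hcon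
      obtain ⟨m, hm⟩ := hcon.bddAbove
      apply hinf
      have hsub : A ⊆ insert a {x | x ∈ A ∧ a < x ∧ ρ a x ≤ m} := by
        intro x hx
        rcases lt_trichotomy x a with h | h | h
        · exact absurd h (hamin x hx)
        · left; exact h
        · right
          exact ⟨hx, h, hm ⟨x, ⟨hx, h⟩, rfl⟩⟩
      exact ((h1 m).insert a).subset hsub
    obtain ⟨D, hD, hDc⟩ := hDinf.exists_subset_card_eq q
    have hex : ∀ d : ℕ, ∃ x : X, d ∈ D → (x ∈ A ∧ a < x ∧ ρ a x = d) := by
      intro d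
      by_cases hd : d ∈ D
      · obtain ⟨x, hx, hxd⟩ := hD hd
        exact ⟨x, fun _ => ⟨hx.1, hx.2, hxd⟩⟩
      · exact ⟨a, fun h => absurd h hd⟩
    choose w hw using hex
    refine ⟨D.sup id, D.image w, ?_, ?_⟩
    · intro x hx
      rw [coe_image] at hx
      obtain ⟨d, hd, rfl⟩ := hx
      exact (hw d hd).1
    · have : D ⊆ vals ρ (D.image w) a (D.sup id) := by
        intro d hd
        simp only [vals, mem_image, up, mem_filter]
        refine ⟨w d, ⟨⟨d, hd, rfl⟩, (hw d hd).2.1, ?_⟩, (hw d hd).2.2⟩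
        rw [(hw d hd).2.2]
        exact le_sup (f := id) hd
      rw [← hDc]
      exact card_le_card this
  -- the demand sequence
  choose μ τ hτA hτ using h2
  set M : ℕ → ℕ := fun n => Nat.rec (μ 10) (fun _ x => μ (2 * (1 + L x))) n with hM
  have hM0 : M 0 = μ 10 := rfl
  have hMs : ∀ i, M (i+1) = μ (2 * (1 + L (M i))) := fun i => rfl
  have hpath : ∀ r, Path ρ Set.univ a r M := by
    intro r
    set t : Finset X := insert a (τ 10 ∪ (range r).biUnion (fun i => τ (2 * (1 + L (M i))))) with ht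
    have htA : (t : Set X) ⊆ A := by
      intro x hx
      rw [mem_coe, ht, mem_insert, mem_union, mem_biUnion] at hx
      rcases hx with h | h | ⟨i, _, h⟩
      · exact h ▸ haA
      · exact hτA _ h
      · exact hτA _ h
    refine (hfin t htA a (mem_insert_self _ _)).2 r M ⟨?_, ?_⟩
    · refine (hτ 10).trans (card_le_card (vals_mono ρ ?_ a le_rfl))
      intro x hx
      exact mem_insert_of_mem (mem_union_left _ hx)
    · intro i hi
      rw [hMs]
      refine (hτ (2 * (1 + L (M i)))).trans (card_le_card (vals_mono ρ ?_ a le_rfl))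
      intro x hx
      apply mem_insert_of_mem
      apply mem_union_right
      rw [mem_biUnion]
      exact ⟨i, mem_range.mpr (by omega), hx⟩
  -- the infinite descent
  have hdesc : ∀ b : X, ∀ i : ℕ, ¬ (∀ r, ∃ z : ℕ → X, (∀ k < r, z k < b ∧ z k < a ∧ ρ (z k) a ≤ M (i + k)) ∧
      ∀ k, k + 1 < r → z (k+1) < z k) := by
    intro b
    induction b using WellFoundedLT.induction with
    | ind b ih =>
      intro i hP
      have hGfin : {z | z < b ∧ z < a ∧ ρ z a ≤ M i}.Finite :=
        (hc a (M i)).subset (fun z hz => ⟨hz.2.1, hz.2.2⟩)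
      have hGne : {z | z < b ∧ z < a ∧ ρ z a ≤ M i}.Nonempty := by
        obtain ⟨z, hz, _⟩ := hP 1
        exact ⟨z 0, by simpa using hz 0 (by norm_num)⟩
      obtain ⟨b', hb', hmax⟩ := Set.exists_max_image _ id hGfin hGne
      apply ih b' hb'.1 (i+1)
      intro r
      obtain ⟨z, hz, hz'⟩ := hP (r+1)
      have hz0 : z 0 ≤ b' := hmax (z 0) (by simpa using hz 0 (by omega))
      have hle : ∀ k, k + 1 < r + 1 → z (k+1) < z 0 := by
        intro k
        induction k with
        | zero => intro h; exact hz' 0 h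
        | succ n ihn => intro h; exact (hz' (n+1) h).trans (ihn (by omega))
      refine ⟨fun k => z (k+1), ?_, ?_⟩
      · intro k hk
        refine ⟨lt_of_lt_of_le (hle k (by omega)) hz0, (hz (k+1) (by omega)).2.1, ?_⟩
        have := (hz (k+1) (by omega)).2.2
        rw [show i + 1 + k = i + (k + 1) by ring]
        exact this
      · intro k hk
        exact hz' (k+1) (by omega)
  apply hdesc a 0
  intro r
  obtain ⟨z, hz, hz'⟩ := hpath r
  refine ⟨z, fun k hk => ?_, hz'⟩
  have := (hz k hk).2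
  rw [zero_add]
  exact ⟨this.1, this.1, this.2⟩

open Classical in
/-- Step A: few points have too many points nearby. -/
lemma stepA (hc : ∀ (c : X) (m : ℕ), {a | a < c ∧ ρ a c ≤ m}.encard ≤ (m : ℕ∞)) (s : Finset X) :
    4 * (s.filter (fun a => ¬ ∀ m, (up ρ s a m).card ≤ L m)).card ≤ s.card := by
  classical
  set Bm : ℕ → Finset X := fun m => s.filter (fun a => L m < (up ρ s a m).card) with hBm
  have hcnt : ∀ m, ∑ a ∈ s, (up ρ s a m).card ≤ m * s.card := by
    intro m
    have h1 : ∑ a ∈ s, (up ρ s a m).card = ∑ x ∈ s, (s.filter (fun a => a < x ∧ ρ a x ≤ m)).card := by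
      simp only [up, card_filter]
      exact sum_comm
    rw [h1]
    have h2 : ∀ x ∈ s, (s.filter (fun a => a < x ∧ ρ a x ≤ m)).card ≤ m := by
      intro x _
      have h3 := hc x m
      have h4 : ((s.filter (fun a => a < x ∧ ρ a x ≤ m) : Finset X) : Set X) ⊆ {a | a < x ∧ ρ a x ≤ m} := by
        intro a ha
        rw [mem_coe, mem_filter] at ha
        exact ha.2
      have h5 := (Set.encard_le_encard h4).trans h3
      rw [Set.encard_coe_eq_coe_finsetCard] at h5
      exact_mod_cast h5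
    calc ∑ x ∈ s, (s.filter (fun a => a < x ∧ ρ a x ≤ m)).card ≤ ∑ x ∈ s, m := sum_le_sum h2
      _ = m * s.card := by rw [sum_const, smul_eq_mul, mul_comm]
  have hB0 : Bm 0 = ∅ := by
    apply filter_eq_empty_iff.mpr
    intro a ha hlt
    have h1 := hcnt 0
    rw [zero_mul] at h1
    have h2 : (up ρ s a 0).card ≤ ∑ a ∈ s, (up ρ s a 0).card :=
      single_le_sum (f := fun a => (up ρ s a 0).card) (fun _ _ => Nat.zero_le _) ha
    have h3 : L 0 = 0 := by simp [L]
    omega
  have hBcard : ∀ m, ((Bm (m+1)).card : ℝ) ≤ (s.card : ℝ) / 2 ^ (m + 3) := by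
    intro m
    have h1 : (Bm (m+1)).card * L (m+1) ≤ (m+1) * s.card := by
      calc (Bm (m+1)).card * L (m+1) = ∑ a ∈ Bm (m+1), L (m+1) := by rw [sum_const, smul_eq_mul]
        _ ≤ ∑ a ∈ Bm (m+1), (up ρ s a (m+1)).card :=
            sum_le_sum (fun a ha => (mem_filter.mp ha).2.le)
        _ ≤ ∑ a ∈ s, (up ρ s a (m+1)).card := sum_le_sum_of_subset (filter_subset _ _)
        _ ≤ (m+1) * s.card := hcnt (m+1)
    have h2 : (Bm (m+1)).card * 2 ^ (m + 3) ≤ s.card := by
      unfold L at h1
      have : (m+1) * ((Bm (m+1)).card * 2 ^ (m + 1 + 2)) ≤ (m+1) * s.card := by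
        calc (m+1) * ((Bm (m+1)).card * 2 ^ (m + 1 + 2)) = (Bm (m+1)).card * ((m+1) * 2 ^ (m + 1 + 2)) := by ring
          _ ≤ _ := h1
      exact Nat.le_of_mul_le_mul_left this (Nat.succ_pos m)
    rw [le_div_iff₀ (by positivity)]
    exact_mod_cast h2
  have hsub : s.filter (fun a => ¬ ∀ m, (up ρ s a m).card ≤ L m) ⊆
      (range s.card).biUnion (fun m => Bm (m+1)) := by
    intro a ha
    rw [mem_filter] at ha
    obtain ⟨has, hno⟩ := ha
    push Not at hno
    obtain ⟨m, hm⟩ := hno
    rw [mem_biUnion]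
    have hmem : a ∈ Bm m := mem_filter.mpr ⟨has, hm⟩
    have hm0 : m ≠ 0 := by
      intro h; subst h
      rw [hB0] at hmem
      exact absurd hmem (notMem_empty _)
    have hlt : m < s.card := by
      have h1 : (up ρ s a m).card ≤ s.card := card_le_card (filter_subset _ _)
      have h2 : m ≤ L m := by
        unfold L
        exact Nat.le_mul_of_pos_right _ (by positivity)
      omega
    refine ⟨m - 1, mem_range.mpr (by omega), ?_⟩
    rw [Nat.sub_add_cancel (Nat.one_le_iff_ne_zero.mpr hm0)]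
    exact hmem
  have hgeo : ∀ n, ∑ m ∈ range n, (s.card : ℝ) / 2 ^ (m + 3) ≤ (s.card : ℝ) / 4 - (s.card : ℝ) / 2 ^ (n + 2) := by
    intro n
    induction n with
    | zero => simp; norm_num
    | succ n ih =>
      rw [sum_range_succ]
      have h1 : (s.card : ℝ) / 2 ^ (n + 3) = (s.card : ℝ) / 2 ^ (n + 2) - (s.card : ℝ) / 2 ^ (n + 1 + 2) := by
        rw [show n + 1 + 2 = n + 3 by ring, show n + 3 = (n + 2) + 1 by ring, pow_succ]
        field_simp
        ring
      linarith
  have h1 := (card_le_card hsub).trans card_biUnion_le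
  have h2 : ((s.filter (fun a => ¬ ∀ m, (up ρ s a m).card ≤ L m)).card : ℝ) ≤ (s.card : ℝ) / 4 := by
    calc ((s.filter (fun a => ¬ ∀ m, (up ρ s a m).card ≤ L m)).card : ℝ)
        ≤ ((∑ m ∈ range s.card, (Bm (m+1)).card : ℕ) : ℝ) := by exact_mod_cast h1
      _ = ∑ m ∈ range s.card, ((Bm (m+1)).card : ℝ) := by push_cast; rfl
      _ ≤ ∑ m ∈ range s.card, (s.card : ℝ) / 2 ^ (m + 3) := sum_le_sum (fun m _ => hBcard m)
      _ ≤ (s.card : ℝ) / 4 - (s.card : ℝ) / 2 ^ (s.card + 2) := hgeo _
      _ ≤ (s.card : ℝ) / 4 := by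
          have : (0 : ℝ) ≤ (s.card : ℝ) / 2 ^ (s.card + 2) := by positivity
          linarith
  have h3 : (4 : ℝ) * ((s.filter (fun a => ¬ ∀ m, (up ρ s a m).card ≤ L m)).card : ℝ) ≤ s.card := by linarith
  exact_mod_cast h3

/-- The half property. -/
theorem half (ha : ∀ a b c : X, a < b → b < c → ρ a c ≤ max (ρ a b) (ρ b c))
    (hb : ∀ a b c : X, a < b → b < c → ρ a b ≤ max (ρ a c) (ρ b c))
    (hc : ∀ (c : X) (m : ℕ), {a | a < c ∧ ρ a c ≤ m}.encard ≤ (m : ℕ∞)) (s : Finset X) :
    ∃ B : Finset X, B ⊆ s ∧ s.card ≤ 2 * B.card ∧ Fam ρ B := by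
  classical
  set S : Finset X := s.filter (fun a => ∀ m, (up ρ s a m).card ≤ L m) with hS
  have hSs : S ⊆ s := filter_subset _ _
  have hA := stepA ρ hc s
  have hScard : S.card + (s.filter (fun a => ¬ ∀ m, (up ρ s a m).card ≤ L m)).card = s.card :=
    card_filter_add_card_filter_not _
  set B : Finset X := S.filter (fun a => ∃ r M, Valid ρ S a r M ∧ ¬ Path ρ (S : Set X) a r M) with hB
  have hBS : B ⊆ S := filter_subset _ _
  have hdeg : ∀ a ∈ S, ∀ m, (up ρ S a m).card ≤ L m := by
    intro a haS m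
    exact (card_le_card (up_mono ρ hSs a le_rfl)).trans ((mem_filter.mp haS).2 m)
  have hbad := bad_card ρ S ha hb hdeg B hBS (fun a h => (mem_filter.mp h).2)
  refine ⟨S \ B, Finset.sdiff_subset.trans hSs, ?_, ?_⟩
  · have h1 := card_sdiff_add_card_eq_card hBS
    omega
  · intro a haSB
    rw [mem_sdiff] at haSB
    obtain ⟨haS, haB⟩ := haSB
    refine ⟨fun m => (card_le_card (up_mono ρ Finset.sdiff_subset a le_rfl)).trans (hdeg a haS m), ?_⟩
    intro r M hv
    by_contra hno
    apply haB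
    rw [hB, mem_filter]
    refine ⟨haS, r, M, hv.mono ρ Finset.sdiff_subset, fun hp => hno (hp.mono ρ (Set.subset_univ _))⟩

end Pool.Agent.H65.HalfFam
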